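import Mathlib
import Pool.Agent.Lib.helper18.DigLap2

set_option autoImplicit false

open Classical Matrix Finset

namespace Pool.Agent.Results.MP_6838a0_co.Gap

/-- Laplacian `D - A` of the digraph with arc relation `a` (out-degrees on the diagonal). -/
noncomputable def lap {n : ℕ} (a : Fin n → Fin n → Prop) : Matrix (Fin n) (Fin n) ℝ :=
  Matrix.of fun i j => (if i = j then (({k | a i k} : Set (Fin n)).ncard : ℝ) else 0) -
    (if a i j then 1 else 0)

/-- Values `xᵀ L x` over real unit vectors `x` orthogonal to the all-ones vector. -/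
def vals {n : ℕ} (L : Matrix (Fin n) (Fin n) ℝ) : Set ℝ :=
  {t | ∃ x : Fin n → ℝ, ∑ i, x i = 0 ∧ x ⬝ᵥ x = 1 ∧ x ⬝ᵥ (L *ᵥ x) = t}

/-- Laplacian spread `β - α`. -/
noncomputable def sp {n : ℕ} (a : Fin n → Fin n → Prop) : ℝ :=
  sSup (vals (lap a)) - sInf (vals (lap a))

lemma sp_eq {n : ℕ} (a : Fin n → Fin n → Prop) :
    sp a = sSup (H18Dig.rset (H18Dig.lap a)) - sInf (H18Dig.rset (H18Dig.lap a)) := by
  have : lap a = H18Dig.lap a := by
    ext i j; simp only [lap, H18Dig.lap, of_apply]; congr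
  unfold sp; rw [this]; rfl

theorem result : ∀ (n : ℕ) (a : Fin n → Fin n → Prop), 2 ≤ n → (∀ i, ¬ a i i) →
    (∀ i, ({k | a i k} : Set (Fin n)).ncard = ({k | a k i} : Set (Fin n)).ncard) →
    ¬ (0 < sp a ∧ sp a < 1) := by
  rintro n a hn ha hb ⟨h0, h1⟩
  rw [sp_eq] at h0 h1
  exact h0.ne' (H18Dig.gap a ha hb ⟨0, by omega⟩ h1)

end Pool.Agent.Results.MP_6838a0_co.Gap
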